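import Mathlib

/-!
Binary space partitions of the plane `ℝ × ℝ`.
A BSP tree is a Mathlib `BinaryTree` whose internal nodes carry a triple `(a, b, c)`, the
cutting line `a x + b y = c`; its leaves are the `nil` nodes.
-/

namespace Pool.Agent.MP_df548b_lc

/-- `IsBSP S R T`: the tree `T`, whose root carries the region `R`, is a binary space partition
for the family `S` of subsets of the plane.  An internal node `(a, b, c)` carries the genuine line
`a x + b y = c`, its two children carry the intersections of the region with the two closed
half-planes, and the interior of the region of every leaf is disjoint from every member of `S`. -/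
def IsBSP (S : Finset (Set (ℝ × ℝ))) : Set (ℝ × ℝ) → BinaryTree (ℝ × ℝ × ℝ) → Prop
  | R, .nil => ∀ s ∈ S, Disjoint (interior R) s
  | R, .node (a, b, c) l r =>
      (a ≠ 0 ∨ b ≠ 0) ∧
        IsBSP S (R ∩ {p | c ≤ a * p.1 + b * p.2}) l ∧
        IsBSP S (R ∩ {p | a * p.1 + b * p.2 ≤ c}) r

end Pool.Agent.MP_df548b_lc
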